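import Mathlib
import Pool.Agent.Helper12.BX.Fus

/-!
# The step of the fusion
-/

set_option autoImplicit false

namespace Pool.Agent.Helper12.BX

open Relation

namespace FS

/-- The walk follows a descending path, with increasing coordinates. -/
theorem wk_of_transGen {N : ℕ} {p : PF} {f e s : ℕ} (h : TransGen (Ds N p) f e) (hs : s < N) :
    ∃ L, wk p (f, s) L = (e, s) ∧
      ∀ k, k < L → (wk p (f, s) k).1 < (wk p (f, s) (k + 1)).1 := by
  have key : ∀ f g, Ds N p f g → stp p (f, s) = (g, s) := by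
    rintro f g ⟨v, h1, h2, _, h4⟩
    have hne : s ≠ dK v := by omega
    rw [stp_some (v := v) h1]
    unfold nxt
    rw [if_neg hne, h2]
  induction h with
  | single h =>
    refine ⟨1, ?_, ?_⟩
    · rw [show (1 : ℕ) = 0 + 1 from rfl, wk_succ, wk_zero, key _ _ h]
    · intro k hk
      obtain rfl : k = 0 := by omega
      rw [wk_succ, wk_zero, key _ _ h]
      exact h.lt
  | tail _ h ih =>
    obtain ⟨L, h1, h2⟩ := ih
    refine ⟨L + 1, ?_, ?_⟩
    · rw [wk_succ, h1, key _ _ h]
    · intro k hk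
      rcases Nat.lt_succ_iff_lt_or_eq.1 hk with h3 | rfl
      · exact h2 k h3
      · rw [wk_succ, h1, key _ _ h]
        exact h.lt

/-- Lemma S for the finitely many functions with domain in `S` and values at most `B`. -/
theorem exists_big_mrg (g : PF → ℕ → ℕ) (c : Cond) (a : ℕ) (S : Finset ℕ) (B : ℕ) :
    ∃ Q, Q ≤ c ∧ ∃ b, ∀ Φ : PF, (∀ d v, Φ d = some v → d ∈ S ∧ v ≤ B) →
      Big Q {y | g (mrg Φ y) a ≤ b} := by
  classical
  let ι : Type := S → Option (Fin (B + 1))
  let T : ι → PF := fun φ d => if h : d ∈ S then (φ ⟨d, h⟩).map Fin.val else none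
  obtain ⟨Q, hQ, b, hb⟩ := exists_big_finset c (Finset.univ : Finset ι)
    (fun φ y => g (mrg (T φ) y) a)
  refine ⟨Q, hQ, b, fun Φ hΦ => ?_⟩
  have hex : ∀ d : S, ∃ o : Option (Fin (B + 1)), o.map Fin.val = Φ d := by
    intro d
    rcases h : Φ d with _ | v
    · exact ⟨none, rfl⟩
    · exact ⟨some ⟨v, Nat.lt_succ_of_le (hΦ d v h).2⟩, rfl⟩
  choose φ hφ using hex
  have hT : T φ = Φ := by
    funext d
    by_cases hd : d ∈ S
    · simp only [T, dif_pos hd]
      exact hφ ⟨d, hd⟩
    · simp only [T, dif_neg hd]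
      rcases h : Φ d with _ | v
      · rfl
      · exact absurd (hΦ d v h).1 hd
  have h1 := hb φ (Finset.mem_univ _)
  rw [hT] at h1
  exact h1

end FS

open FS in
/-- The step of the fusion. -/
theorem fusStep (g : PF → ℕ → ℕ) : FusStep g := by
  classical
  intro i S c n ν hst hν
  obtain ⟨Q, hQc, b0, hb0⟩ := exists_big_mrg g c c.a S (bd (c.a + i))
  have hQa : Q.a = c.a := hQc.a
  have hνQ : ν ∈ Q.M := hQc.M hν
  -- the registry walk
  obtain ⟨m0, hm0⟩ := sq_reach Q.reg
  obtain ⟨m, hm, hmin⟩ : ∃ m, wk Q.p (Q.r, 0) m = (Q.ρ, Q.τ) ∧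
      ∀ k, k < m → Q.p (wk Q.p (Q.r, 0) k).1 ≠ none := by
    have hno : ¬ InfWalk Q.p (Q.r, 0) := by
      intro h
      have h1 := h m0
      rw [hm0] at h1
      exact h1 Q.pρ
    obtain ⟨m, h1, h2⟩ := exists_first hno
    refine ⟨m, ?_, h2⟩
    rw [← hm0]
    exact wk_stop_unique h1 (by rw [hm0]; exact Q.pρ)
  set s := (P c.p n).2 with hs
  set n0 := max b0 (max (Q.h c.a) m) with hn0
  have hn0b : b0 ≤ n0 := le_max_left _ _
  have hn0h : Q.h c.a ≤ n0 := (le_max_left _ _).trans (le_max_right _ _)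
  have hn0m : m ≤ n0 := (le_max_right _ _).trans (le_max_right _ _)
  obtain ⟨j, hj, hSj, e0, he0A, he0S, hDP, hpe0⟩ := Q.ok ν hνQ (s + n0 + c.a + i + 1)
  set f := ν.f j with hf
  have hjf : j ≤ f := ν.le_f j
  have hfe0 : f < e0 := transGen_lt hDP
  set b := mkv s f f 0 n0 with hb
  have hbb : b ≤ ν.b j := by
    refine le_trans (mkv_le_bd (M := ν.f j + j) ?_ ?_ ?_ ?_ ?_) (ν.bound j) <;> omega
  have hn0le : n0 ≤ b := le_mkv _ _ _ _ _
  obtain ⟨a1, ha1A, ha1⟩ := Q.unbounded (max e0 ((ν.S j).sup id))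
  obtain ⟨e, heA, he⟩ := Q.unbounded a1
  obtain ⟨ρ1, hρ1A, hρ1⟩ := Q.unbounded e
  have ha1e0 : e0 < a1 := lt_of_le_of_lt (le_max_left _ _) ha1
  have hS1 : ∀ d ∈ ν.S j, d < a1 := by
    intro d hd
    have h := Finset.le_sup (f := id) hd
    exact lt_of_le_of_lt (h.trans (le_max_right _ _)) ha1
  have hnotA : ∀ d ∈ Q.A, d ≠ c.a := by
    intro d hd h
    apply Q.aA
    rw [hQa, ← h]
    exact hd
  have hpca : Q.p c.a = none := by rw [← hQa]; exact Q.pa
  set v1 := mkv c.a a1 e ρ1 (Q.h e0) with hv1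
  set p1 := up Q.p c.a b with hp1
  set p2 := up p1 e0 v1 with hp2
  have hp1e0 : p1 e0 = none := by rw [hp1, up_ne (hnotA e0 he0A)]; exact hpe0
  have ext1 : Ext Q.p p1 := ext_up hpca
  have ext2 : Ext p1 p2 := ext_up hp1e0
  have ext12 : Ext Q.p p2 := ext1.trans ext2
  have hp2e0 : p2 e0 = some v1 := up_self _ _ _
  have hp2a : p2 c.a = some b := ext2 _ _ (up_self _ _ _)
  have hp2n : ∀ d, d ≠ e0 → d ≠ c.a → p2 d = Q.p d := by
    intro d h1 h2
    rw [hp2, up_ne h1, hp1, up_ne h2]
  have hQodd : ∀ d v, Q.p d = some v → ¬ Even d := by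
    intro d v hv
    rcases hd : c.p d with _ | w
    · rcases (hQc.new d v hd hv).1 with h | h
      · exact (hst.A_odd d h).1
      · rw [h]; exact hst.ρ_odd.1
    · exact hst.p_odd d w hd
  have hAodd : ∀ d ∈ Q.A, ¬ Even d := fun d hd => (hst.A_odd d (hQc.A hd)).1
  have hp2odd : ∀ d v, p2 d = some v → ¬ Even d := by
    intro d v hv
    by_cases h1 : d = e0
    · rw [h1]; exact hAodd _ he0A
    · by_cases h2 : d = c.a
      · rw [h2]; exact hst.a_odd.1
      · rw [hp2n d h1 h2] at hv
        exact hQodd d v hv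
  have hp2new : ∀ d v, Q.p d = none → p2 d = some v → d ≠ c.a → d ∈ Q.A ∧ Q.h d ≤ v := by
    intro d v hd hv hda
    by_cases h1 : d = e0
    · subst h1
      rw [hp2e0] at hv
      obtain rfl : v1 = v := by simpa using hv
      exact ⟨he0A, le_mkv _ _ _ _ _⟩
    · rw [hp2n d h1 hda, hd] at hv
      cases hv
  -- the new condition
  let c' : Cond := {
    p := p2
    h := Q.h
    A := {d | d ∈ Q.A ∧ d ∉ ν.S j ∧ d ≠ e0 ∧ d ≠ a1 ∧ d ≠ e ∧ d ≠ ρ1 ∧ i < d}
    M := Q.M
    a := a1
    r := ρ1
    ρ := ρ1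
    τ := 0
    dis := by
      rintro d ⟨h1, _, h3, _⟩
      rw [hp2n d h3 (hnotA d h1)]
      exact Q.dis d h1
    pa := by
      rw [hp2n a1 (by omega) (hnotA a1 ha1A)]
      exact Q.dis _ ha1A
    aA := fun h => h.2.2.2.1 rfl
    pρ := by
      rw [hp2n ρ1 (by omega) (hnotA ρ1 hρ1A)]
      exact Q.dis _ hρ1A
    ρA := fun h => h.2.2.2.2.2.1 rfl
    ne := by omega
    reg := ReflTransGen.refl
    cnt := Q.cnt
    nem := Q.nem
    ok := by
      intro m' hm'
      refine (Q.ok m' hm').congr (max (max c.a i) ρ1 + 1) ?_ ?_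
      · intro d hd
        exact hp2n d (by omega) (by omega)
      · intro d hd h
        refine ⟨h, fun hS => ?_, by omega, by omega, by omega, by omega, by omega⟩
        have := hS1 d hS
        omega }
  -- the path
  have hca : c.a < f := by omega
  have hdμ1 : Ds i p2 c.a f := ⟨b, hp2a, by simp [hb], hca, by simp [hb]; exact hst.st⟩
  have hdν : TransGen (Ds i p2) f e := by
    refine TransGen.tail (b := e0) (transGen_mono hDP (by omega) ext12) ?_
    exact ⟨v1, hp2e0, by simp [hv1], by omega, by simp [hv1]; exact hst.a_odd.2⟩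
  -- the main walk
  have hPn : ∀ k, k ≤ n → P p2 k = P c.p k := by
    intro k hk
    refine wk_ext (hQc.ext.trans ext12) fun l hl => ?_
    intro h1
    have h2 := hst.inc l (lt_of_lt_of_le hl hk)
    have h3 : c.p (P c.p l).1 = none := h1
    rw [P_succ, stp_none h3] at h2
    exact lt_irrefl _ h2
  have hPa : P c.p n = (c.a, s) := Prod.ext hst.Pn rfl
  obtain ⟨L, hL1, hL2⟩ := wk_of_transGen (s := c.a) (transGen_mono hDP le_rfl ext12) (by omega)
  have hP1 : P p2 (n + 1) = (f, c.a) := by
    rw [P_succ, hPn n le_rfl, hPa, stp_some (v := b) hp2a]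
    simp [nxt, hb]
  have hP2 : ∀ k, P p2 (n + 1 + k) = wk p2 (f, c.a) k := by
    intro k
    have : P p2 (n + 1 + k) = wk p2 (P p2 (n + 1)) k := wk_add _ _ _ _
    rw [this, hP1]
  have hP3 : P p2 (n + 1 + L) = (e0, c.a) := by rw [hP2, hL1]
  have hP4 : P p2 (n + 1 + L + 1) = (a1, e0) := by
    rw [P_succ, hP3, stp_some (v := v1) hp2e0]
    simp [nxt, hv1]
  refine ⟨Q, b, e, c', n + 1 + L + 1, ?_, by omega, ?_⟩
  · exact
    { Qc := hQc
      key := by rw [hPa]; simp [hb]
      idx := ⟨m, hn0m.trans hn0le, hm, hmin⟩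
      big := fun Φ hΦ => (hb0 Φ hΦ).mono le_rfl fun y hy =>
        show g (mrg Φ y) c.a ≤ b from le_trans hy (hn0b.trans hn0le)
      ext := ext12
      pa := hp2a
      ha := hn0h.trans hn0le
      new := hp2new
      h := rfl
      M := rfl
      A := fun d hd => hd.1
      mem := by
        rintro d (rfl | rfl | rfl)
        · exact heA
        · exact ha1A
        · exact hρ1A
      eA := by
        refine ⟨fun h => h.2.2.2.2.1 rfl, he.ne', hρ1.ne, ?_⟩
        show p2 e = none
        rw [hp2n e (by omega) (hnotA e heA)]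
        exact Q.dis _ heA
      Dμ := TransGen.head hdμ1 hdν
      Dν := by
        refine ⟨j, by omega, ?_, ?_, ?_, hdν⟩
        · intro d hd v hv
          have hv' : p2 d = some v := hv
          by_cases h1 : d = e0
          · exact absurd (h1 ▸ hd) he0S
          · by_cases h2 : d = c.a
            · rw [h2, hp2a] at hv'
              obtain rfl : b = v := by simpa using hv'
              exact hbb
            · rw [hp2n d h1 h2] at hv'
              exact hSj d hd v hv'
        · intro d hd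
          have h1 := hS1 d hd
          refine ⟨fun h => h.2.1 hd, h1.ne, ?_⟩
          show d ≠ ρ1
          omega
        · intro h
          have := hS1 e h
          omega }
  · exact
    { p_odd := hp2odd
      A_odd := fun d hd => ⟨hAodd d hd.1, hd.2.2.2.2.2.2⟩
      ρ_odd := ⟨hAodd _ hρ1A, show i + 1 ≤ ρ1 by omega⟩
      a_odd := ⟨hAodd _ ha1A, show i + 1 ≤ a1 by omega⟩
      pos := by omega
      inc := by
        intro k hk
        show (P p2 k).1 < (P p2 (k + 1)).1
        rcases Nat.lt_trichotomy k n with h | h | h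
        · rw [hPn k h.le, hPn (k + 1) h]
          exact hst.inc k h
        · subst h
          rw [hPn k le_rfl, hPa, hP1]
          exact hca
        · obtain ⟨l, rfl⟩ : ∃ l, k = n + 1 + l := ⟨k - (n + 1), by omega⟩
          rcases Nat.lt_or_ge l L with h1 | h1
          · have e1 : n + 1 + l + 1 = n + 1 + (l + 1) := by omega
            rw [e1, hP2, hP2]
            exact hL2 l h1
          · obtain rfl : l = L := by omega
            rw [hP4, hP3]
            exact ha1e0
      Pn := by
        show (P p2 (n + 1 + L + 1)).1 = a1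
        rw [hP4]
      st := by
        show i + 1 ≤ (P p2 (n + 1 + L + 1)).2
        rw [hP4]
        show i + 1 ≤ e0
        omega
      root := by
        refine ⟨v1, ?_, by simp [hv1]; rfl⟩
        show p2 (P p2 (n + 1 + L + 1 - 1)).1 = some v1
        rw [Nat.add_sub_cancel, hP3]
        exact hp2e0
      S := by
        have hpe : p2 e = none := by
          rw [hp2n e (by omega) (hnotA e heA)]
          exact Q.dis _ heA
        have hold : ∀ d, Q.p d = none → d ∉ Q.A → d ≠ c.a →
            p2 d = none ∧ d ∉ c'.A ∧ d ≠ a1 ∧ d ≠ ρ1 := by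
          intro d h1 h2 h3
          refine ⟨?_, fun h => h2 h.1, fun h => h2 (h ▸ ha1A), fun h => h2 (h ▸ hρ1A)⟩
          rw [hp2n d (fun h => h2 (h ▸ he0A)) h3]
          exact h1
        intro d hd
        show p2 d = none ∧ d ∉ c'.A ∧ d ≠ a1 ∧ d ≠ ρ1
        rw [Finset.mem_insert, Finset.mem_insert] at hd
        rcases hd with rfl | rfl | hd
        · exact ⟨hpe, fun h => h.2.2.2.2.1 rfl, he.ne', hρ1.ne⟩
        · exact hold _ Q.pρ Q.ρA (fun h => Q.ne (hQa.trans h.symm))
        · have hSd : d ∈ S → p2 d = none ∧ d ∉ c'.A ∧ d ≠ a1 ∧ d ≠ ρ1 := by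
            intro h
            obtain ⟨h1, h2, h3, h4⟩ := hst.S d h
            refine hold d (Le.none hQc h1 h2 h4) (fun h => h2 (hQc.A h)) h3
          split_ifs at hd with hi
          · rcases Finset.mem_insert.1 hd with rfl | hd
            · refine ⟨?_, fun h => hAodd _ h.1 hi, fun h => ?_, fun h => ?_⟩
              · rcases h : p2 d with _ | v
                · rfl
                · exact absurd hi (hp2odd d v h)
              · exact hAodd _ ha1A (h ▸ hi)
              · exact hAodd _ hρ1A (h ▸ hi)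
            · exact hSd hd
          · exact hSd hd }

end Pool.Agent.Helper12.BX
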